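import Pool.Agent.H30.SY.Stm

/-!
# A cluster near the limit shape is symmetric
-/

set_option autoImplicit false

open MeasureTheory ProbabilityTheory Finset Filter
open scoped Topology Pointwise

namespace Pool.Agent.H76.SY

open Q70.Fp Pool.Agent.H30.SY

lemma dd_cast (x y : ℤ × ℤ) : (dd x y : ℝ) = |(y.1 : ℝ) - (x.1 : ℝ)| + |(y.2 : ℝ) - (x.2 : ℝ)| := by
  simp only [dd, Nat.cast_add, Nat.cast_natAbs, Int.cast_abs, Int.cast_sub]

theorem t_GEO (hEV : S_EVEN) : S_GEO := by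
  rintro μ hμ w t r ht hr hr1 hup hlow ⟨v, hv, hfar⟩
  have h1 : ((v.1 : ℝ), (v.2 : ℝ)) ∈ ((1 + r) * t) • {x : ℝ × ℝ | μ x ≤ 1} := by
    refine hup ⟨v, hv, ?_, ?_⟩ <;> simp
  obtain ⟨x, hx, hxv⟩ := Set.mem_smul_set.1 h1
  have hx1 : μ x ≤ 1 := hx
  have hs : 0 < (1 + r) * t := by positivity
  -- the size of `x`
  have e1 : (v.1 : ℝ) = (1 + r) * t * x.1 := by
    have := congrArg Prod.fst hxv
    simpa using this.symm
  have e2 : (v.2 : ℝ) = (1 + r) * t * x.2 := by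
    have := congrArg Prod.snd hxv
    simpa using this.symm
  have h2 : (dd 0 v : ℝ) / 22 ≤ (1 + r) * t := by
    have h3 := mz_low hμ v
    have h4 : mz μ v = (1 + r) * t * μ x := by
      rw [mz, ← hxv, hμ.hom x _ hs.le]
    rw [h4] at h3
    nlinarith
  have h5 : |x.1| + |x.2| ≤ 22 := by
    rw [dd_cast] at h2
    simp only [Prod.fst_zero, Prod.snd_zero, Int.cast_zero, sub_zero] at h2
    rw [e1, e2, abs_mul _ x.1, abs_mul _ x.2, abs_of_pos hs, ← mul_add] at h2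
    have h6 : (1 + r) * t * (|x.1| + |x.2|) ≤ (1 + r) * t * 22 := by linarith
    exact le_of_mul_le_mul_left h6 hs
  have h7 : ((1 - r) * t) • (-x) ∈ ((1 - r) * t) • {x : ℝ × ℝ | μ x ≤ 1} := by
    refine Set.smul_mem_smul_set ?_
    show μ (-x) ≤ 1
    rw [hEV μ hμ x]
    exact hx1
  obtain ⟨y, hy, hy1, hy2⟩ := hlow h7
  have h8 := hfar y hy
  rw [dd_cast] at h8
  simp only [Prod.fst_zero, Prod.snd_zero, Int.cast_zero, sub_zero, Prod.fst_add, Prod.snd_add,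
    Int.cast_add, Prod.smul_fst, Prod.smul_snd, Prod.fst_neg, Prod.snd_neg, smul_eq_mul] at h8 hy1 hy2
  rw [e1, e2] at h8
  have hrt : 0 < r * t := by positivity
  have a1 : |(y.1 : ℝ) + (1 + r) * t * x.1| ≤ 1 / 2 + 2 * (r * t) * |x.1| := by
    have b1 : (y.1 : ℝ) + (1 + r) * t * x.1 = -((1 - r) * t * -x.1 - (y.1 : ℝ)) + 2 * (r * t) * x.1 := by
      ring
    rw [b1]
    refine (abs_add_le _ _).trans (add_le_add ?_ ?_)
    · rw [abs_neg]; exact hy1
    · rw [abs_mul _ x.1, abs_of_pos (by positivity : 0 < 2 * (r * t))]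
  have a2 : |(y.2 : ℝ) + (1 + r) * t * x.2| ≤ 1 / 2 + 2 * (r * t) * |x.2| := by
    have b1 : (y.2 : ℝ) + (1 + r) * t * x.2 = -((1 - r) * t * -x.2 - (y.2 : ℝ)) + 2 * (r * t) * x.2 := by
      ring
    rw [b1]
    refine (abs_add_le _ _).trans (add_le_add ?_ ?_)
    · rw [abs_neg]; exact hy2
    · rw [abs_mul _ x.2, abs_of_pos (by positivity : 0 < 2 * (r * t))]
  have a3 : 2 * (r * t) * (|x.1| + |x.2|) ≤ 2 * (r * t) * 22 :=
    mul_le_mul_of_nonneg_left h5 (by positivity)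
  nlinarith

end Pool.Agent.H76.SY
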